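import Pool.Agent.H21.T3.Stm

/-! Crew T3, part ENT: small subsets. -/

set_option autoImplicit false

namespace Pool.Agent.H4.T3

open Pool.Agent.H21.T3

theorem fifty_le : (50 : ℝ) ≤ Real.exp 4 := by
  have h1 : (2.7182818283 : ℝ) < Real.exp 1 := Real.exp_one_gt_d9
  have h2 : Real.exp 4 = Real.exp 1 ^ 4 := by
    rw [← Real.exp_nat_mul]; norm_num
  rw [h2]
  calc (50 : ℝ) ≤ 2.7182818283 ^ 4 := by norm_num
    _ ≤ Real.exp 1 ^ 4 := by gcongr

theorem t_ENT : S_ENT := by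
  intro B
  have key : ∀ E ∈ B.powerset.filter (fun E => 50 * E.card ≤ B.card),
      (1 : ℝ) ≤ (1 / 50 : ℝ) ^ E.card * Real.exp (4 * ((B.card : ℝ) / 50)) := by
    intro E hE
    have hc := (Finset.mem_filter.1 hE).2
    have hc' : (50 : ℝ) * E.card ≤ B.card := by exact_mod_cast hc
    have h1 : (50 : ℝ) ^ E.card ≤ Real.exp (4 * ((B.card : ℝ) / 50)) := by
      calc (50 : ℝ) ^ E.card ≤ Real.exp 4 ^ E.card := by gcongr; exact fifty_le
        _ = Real.exp (E.card * 4) := by rw [← Real.exp_nat_mul]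
        _ ≤ Real.exp (4 * ((B.card : ℝ) / 50)) := by
          apply Real.exp_le_exp.2
          linarith
    calc (1 : ℝ) = (1 / 50 : ℝ) ^ E.card * (50 : ℝ) ^ E.card := by
          rw [← mul_pow]; norm_num
      _ ≤ _ := by gcongr
  have h2 : ∑ E ∈ B.powerset, (1 / 50 : ℝ) ^ E.card = (1 / 50 + 1 : ℝ) ^ B.card := by
    rw [← Finset.sum_pow_mul_eq_add_pow]
    refine Finset.sum_congr rfl fun E _ => ?_
    rw [one_pow, mul_one]
  calc ((B.powerset.filter (fun E => 50 * E.card ≤ B.card)).card : ℝ)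
      = ∑ _E ∈ B.powerset.filter (fun E => 50 * E.card ≤ B.card), (1 : ℝ) := by simp
    _ ≤ ∑ E ∈ B.powerset.filter (fun E => 50 * E.card ≤ B.card),
        (1 / 50 : ℝ) ^ E.card * Real.exp (4 * ((B.card : ℝ) / 50)) := Finset.sum_le_sum key
    _ ≤ ∑ E ∈ B.powerset, (1 / 50 : ℝ) ^ E.card * Real.exp (4 * ((B.card : ℝ) / 50)) :=
        Finset.sum_le_sum_of_subset_of_nonneg (Finset.filter_subset _ _)
          fun _ _ _ => by positivity
    _ = (1 / 50 + 1 : ℝ) ^ B.card * Real.exp (4 * ((B.card : ℝ) / 50)) := by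
        rw [← Finset.sum_mul, h2]
    _ ≤ Real.exp ((1 : ℝ) / 50) ^ B.card * Real.exp (4 * ((B.card : ℝ) / 50)) := by
        gcongr
        exact Real.add_one_le_exp _
    _ = Real.exp ((B.card : ℝ) / 10) := by
        rw [← Real.exp_nat_mul, ← Real.exp_add]
        congr 1
        ring

end Pool.Agent.H4.T3
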