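import Pool.Agent.H21.T3.Stm

/-! Crew T3, part INJ: a walk is determined by its part outside the box, the visited vertices, the
entering edges and the choices. -/

set_option autoImplicit false

namespace Pool.Agent.H4.T3

open Pool.Agent.H21.T3
open Pool.Agent.H21.SD (c outs Bx)

theorem adj_of_c (S : Finset V) : ∀ (l : List V) (v w : V), l.IsChain (Ad S) → c l v w ≠ 0 →
    Ad S v w
  | [], _, _, _, h => absurd rfl h
  | [_], _, _, _, h => absurd rfl h
  | p :: q :: l, v, w, hc, h => by
    rw [c] at h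
    rw [List.isChain_cons_cons] at hc
    by_cases h1 : (p = v ∧ q = w) ∨ (p = w ∧ q = v)
    · rcases h1 with ⟨rfl, rfl⟩ | ⟨rfl, rfl⟩
      · exact hc.1
      · exact hc.1.symm
    · rw [if_neg h1, zero_add] at h
      exact adj_of_c S (q :: l) v w hc.2 h

theorem near_box {S : Finset V} (hS : Ok S) {i j : ℤ} {n : ℕ} {v s : V} (hs : s ∈ S)
    (hw : v + s ∈ Bx i j n) : v ∈ Bx (i - 1) (j - 1) (n + 2) := by
  obtain ⟨v1, v2⟩ := v
  obtain ⟨s1, s2⟩ := s
  have hb : (-1 ≤ s1 ∧ s1 ≤ 1) ∧ (0 ≤ s2 ∧ s2 ≤ 1) := by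
    rcases hS with rfl | rfl
    · simp only [S2, Finset.mem_insert, Finset.mem_singleton, Prod.mk.injEq] at hs
      omega
    · simp only [S3, Finset.mem_insert, Finset.mem_singleton, Prod.mk.injEq] at hs
      omega
  have hw' := Pool.Agent.H21.SD.mem_Bx.1 hw
  simp only [Prod.mk_add_mk] at hw'
  refine Pool.Agent.H21.SD.mem_Bx.2 ?_
  simp only
  push_cast
  omega

theorem t_INJ (hDET : S_DET) : S_INJ := by
  intro S hS a b l l' i j n hl hl' hvis hent hch houts
  have hdet := hDET S hS a b l l' i j n hl hl' hvis hent hch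
  have hstep : ∀ v s : V, s ∈ S → (v ∈ Bx i j n ∨ v + s ∈ Bx i j n) →
      c l v (v + s) = c l' v (v + s) := by
    intro v s hs hbox
    by_cases hv : v ∈ Bx i j n
    · exact hdet v hv s hs
    · have hw : v + s ∈ Bx i j n := hbox.resolve_left hv
      refine hent (v, s) ?_
      refine Finset.mem_filter.2 ⟨Finset.mem_product.2 ⟨Finset.mem_sdiff.2 ⟨?_, hv⟩, hs⟩, hw⟩
      exact near_box hS hs hw
  refine Pool.Agent.H21.SD.uniq l l' hl.2.2.1 hl'.2.2.1 (hl.1.trans hl'.1.symm) fun v w => ?_
  by_cases hbox : v ∈ Bx i j n ∨ w ∈ Bx i j n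
  · by_cases hA : Ad S v w
    · rcases hA with h | h
      · have hw : w = v + (w - v) := by abel
        have := hstep v (w - v) h (by rw [← hw]; exact hbox)
        rwa [← hw] at this
      · have hv : v = w + (v - w) := by abel
        have := hstep w (v - w) h (by rw [← hv]; exact hbox.symm)
        rw [← hv] at this
        rw [Pool.Agent.H21.SD.c_symm l v w, Pool.Agent.H21.SD.c_symm l' v w]
        exact this
    · have h1 : c l v w = 0 := by
        by_contra h
        exact hA (adj_of_c S l v w hl.2.2.2 h)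
      have h2 : c l' v w = 0 := by
        by_contra h
        exact hA (adj_of_c S l' v w hl'.2.2.2 h)
      rw [h1, h2]
  · rw [not_or] at hbox
    rw [Pool.Agent.H21.SD.outs_sum v w hbox.1 hbox.2 l,
      Pool.Agent.H21.SD.outs_sum v w hbox.1 hbox.2 l', houts]

end Pool.Agent.H4.T3
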